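import Pool.Agent.N728.QU.AllLT

set_option autoImplicit false

/-!
# Averages of `λ(m² + c - h²)` for almost all `h`

For every integer `c ≠ 0`, `|c| ≤ K H²`, for example `c = 1`, and all but at most `ε H` of the `h ≤ H`, all the averages of
the Liouville function of `m² + c - h²` over `m ≤ M`, `ε H ≤ M ≤ K H`, are at most `ε` in absolute value. For `c = 1`,
`h = 0` these are the averages of `λ(m² + 1)`.

Proof (`Agent/N728/QL`, `Agent/N728/QG`, `Agent/N728/QU`): `m² - h² = u (u + 2 h)` with `u = m - h`, so the question is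
one about the polynomials `u² + 2 h u + c` with variable linear coefficient, for which bilinear sums over `u v + c` with
an arbitrary bounded function of `v - u` are estimated, uniformly in `c`, by an exchange of divisors between `u` and `v`,
and by the theorem of Bombieri and Vinogradov for `λ`.
-/

namespace Pool.Agent.Results.MP_de94cf_nt.ThinFamilyOfConstants

open Finset

/-- The Liouville function of `|n|`; its value at `0` is `0`. -/
noncomputable def liouville (n : ℤ) : ℝ := if n = 0 then 0 else (-1) ^ (ArithmeticFunction.cardFactors n.natAbs)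

open Classical in
/-- The number of the integers `1 ≤ h ≤ H` for which one of the averages over `m ≤ M`, `ε H ≤ M ≤ K H`, of the Liouville
function of `m² + c - h²` exceeds `ε` in absolute value. -/
noncomputable def exceptions (c : ℤ) (K : ℕ) (ε : ℝ) (H : ℕ) : ℕ :=
  ((Icc 1 H).filter (fun h : ℕ => ∃ M : ℕ, ε * H ≤ M ∧ M ≤ K * H ∧
    ε * M < |∑ m ∈ Icc 1 M, liouville ((m : ℤ) ^ 2 + c - (h : ℤ) ^ 2)|)).card

/-- **Theorem.** -/
theorem result (ε : ℝ) (hε : 0 < ε) (K : ℕ) : ∃ H₀ : ℕ, ∀ H : ℕ, H₀ ≤ H → ∀ c : ℤ, c ≠ 0 →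
    c.natAbs ≤ K * H ^ 2 → (exceptions c K ε H : ℝ) ≤ ε * H := by
  classical
  obtain ⟨η, hη⟩ : ∃ η : ℝ, η = min ε (ε ^ 2) := ⟨_, rfl⟩
  have hη0 : 0 < η := by rw [hη]; positivity
  have hη1 : η ≤ ε := by rw [hη]; exact min_le_left _ _
  have hη2 : η ≤ ε ^ 2 := by rw [hη]; exact min_le_right _ _
  obtain ⟨H0, hF⟩ := Pool.Agent.N728.QU.finalLT 1 0 le_rfl η K hη0
  refine ⟨H0, fun H hH c hc hcK => ?_⟩
  refine le_trans ?_ ((hF H hH c hc hcK).trans (mul_le_mul_of_nonneg_right hη1 (by positivity)))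
  unfold exceptions
  rw [Nat.cast_le]
  apply card_le_card
  intro h hh
  rw [mem_filter] at hh ⊢
  obtain ⟨h1, M, hM1, hM2, hM3⟩ := hh
  refine ⟨h1, M, hM2, ?_⟩
  have e0 : ∑ m ∈ Icc 1 M, Pool.Agent.N728.QG.lam (Pool.Agent.N728.QU.Vg 1 0 1 c h m) =
      ∑ m ∈ Icc 1 M, liouville ((m : ℤ) ^ 2 + c - (h : ℤ) ^ 2) := by
    apply sum_congr rfl
    intro m _
    have e1 : Pool.Agent.N728.QU.Vg 1 0 1 c h m = (m : ℤ) ^ 2 + c - (h : ℤ) ^ 2 := by
      unfold Pool.Agent.N728.QU.Vg
      ring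
    rw [e1]
    rfl
  rw [e0]
  refine lt_of_le_of_lt ?_ hM3
  calc η * (H : ℝ) ≤ ε ^ 2 * H := mul_le_mul_of_nonneg_right hη2 (by positivity)
    _ = ε * (ε * H) := by ring
    _ ≤ ε * M := mul_le_mul_of_nonneg_left hM1 hε.le

end Pool.Agent.Results.MP_de94cf_nt.ThinFamilyOfConstants
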